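import Pool.Agent.Q20.BL.Bld
import Pool.Agent.Q20.TW.Std

/-!
# The equivariant Beilinson conjecture over totally real fields: statements
-/

set_option autoImplicit false
set_option linter.unusedSectionVars false

namespace Pool.Agent.Q20.RS.RL.BX

open NumberField IsDedekindDomain Pool.Agent.Q20.RS.BK
open Pool.Agent.Q20.RS.RL.BL (Ev)

/-- (1) **Dihedral relations** and the resulting product formulas for Artin L-functions and for the
numbers `A_k(χ)`, for all linear characters and all nontrivial twists -/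
def Relations (K : Type) [Field K] [NumberField K] (k : ℕ) (H : Motivic K k) : Prop :=
  ∀ (F : Sub K) (ψ η : Lin F), FinExt F → ψ.smooth → Twister ψ η → (∃ g, η.fn g ≠ 1) →
    ∃ d : Dihedral ψ η, Ev fun ℓ : BLv K k H =>
      (∀ s : ℂ, 1 < s.re → ℓ.L ψ.fn s * ℓ.L (ψ.res d.le₃).fn s =
        ℓ.L (ψ.mul η).fn s * (ℓ.L (ψ.res d.le₁).fn s * ℓ.L (ψ.res d.le₂).fn s)) ∧
      ℓ.A ψ.fn * ℓ.A (ψ.res d.le₃).fn =
        ℓ.A (ψ.mul η).fn * (ℓ.A (ψ.res d.le₁).fn * ℓ.A (ψ.res d.le₂).fn)

/-- Beilinson's equality for all automorphisms of `ℂ` -/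
def BEq {K : Type} [Field K] [NumberField K] {k : ℕ} (H : Motivic K k) {F : Sub K} (χ : Fn F) :
    Prop :=
  Ev fun ℓ : BLv K k H => ∀ σ : ℂ ≃+* ℂ, σ (ℓ.A χ) = ℓ.A (conj σ χ)

/-- (4) **Beilinson's conjecture**, granted for the linear characters which are unramified at all
finite places: it holds for `ψη` if and only if it holds for `ψ`; over totally real fields, for a
linear character if and only if for a twist of parity `(-1)^k`, and it holds for all characters with
commuting complex conjugations, in particular for all linear characters, if it holds for the linear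
characters of parity `(-1)^k` (theorem of Siegel and Klingen) -/
def Beilinson (K : Type) [Field K] [NumberField K] (k : ℕ) (H : Motivic K k) : Prop :=
  (∀ (F : Sub K) (ψ : Lin F), FinExt F → ψ.smooth → ψ.unram → BEq H ψ.fn) →
    (∀ (F : Sub K) (ψ η : Lin F), FinExt F → ψ.smooth → Twister ψ η →
      (BEq H (ψ.mul η).fn ↔ BEq H ψ.fn)) ∧
    (∀ (F : Sub K) (ψ : Lin F), FinExt F → TotReal F → ψ.smooth →
      ∃ η : Lin F, Twister ψ η ∧ (ψ.mul η).parity ((-1) ^ k) ∧
        (BEq H ψ.fn ↔ BEq H (ψ.mul η).fn)) ∧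
    ((∀ (F : Sub K) (ψ : Lin F), FinExt F → TotReal F → ψ.smooth → ψ.parity ((-1) ^ k) →
        BEq H ψ.fn) →
      (∀ (F : Sub K) (ψ : Lin F), FinExt F → TotReal F → ψ.smooth → BEq H ψ.fn) ∧
      ∀ (F : Sub K) (χ : Fn F), FinExt F → TotReal F → CharCC χ → BEq H χ)

end Pool.Agent.Q20.RS.RL.BX
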