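import Pool.Agent.Q20.BX.Bxd
import Pool.Agent.Q20.GD.Grx
import Pool.Agent.Q20.BL.Blp
import Pool.Agent.Q20.TW.Stp

/-!
# The equivariant Beilinson conjecture over totally real fields: proofs
-/

set_option autoImplicit false
set_option linter.unusedSectionVars false

namespace Pool.Agent.Q20.RS.RL.BX

open NumberField IsDedekindDomain Pool.Agent.Q20.RS.BK
open Pool.Agent.Q246.BI (Smooth IsCharacter induced)
open Pool.Agent.Q20.TR (bt)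
open Pool.Agent.Q20.RS.RL.BL (Ev)
open scoped Classical

section
variable {K : Type} [Field K] [NumberField K] {k : ℕ}

theorem bl_ne {H : Motivic K k} (ℓ : BLv K k H) {F : Sub K} (χ : Fn F) (s : ℂ) : ℓ.L χ s ≠ 0 :=
  Complex.exp_ne_zero _

theorem relations (H : Motivic K k) : Relations K k H := by
  intro F ψ η hF hψ hη hne
  obtain ⟨d⟩ := exists_dihedral hF hψ hη hne
  refine ⟨d, ?_⟩
  have c := smooth_char hψ
  have c₁ := smooth_char (smooth_res d.le₁ hψ)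
  have c₂ := smooth_char (smooth_res d.le₂ hψ)
  have c₃ := smooth_char (smooth_res d.le₃ hψ)
  have cη := smooth_char (smooth_mul hψ hη.smooth)
  let l : List (Term K) := [⟨F, ψ, 1⟩, ⟨d.F₃, ψ.res d.le₃, 1⟩, ⟨d.F₁, ψ.res d.le₁, -1⟩,
    ⟨d.F₂, ψ.res d.le₂, -1⟩]
  obtain ⟨N₀, hN₀, h1⟩ := GD.prod_of_mem hF cη 1 (l := l) (fun t ht => by
      rcases List.mem_cons.1 ht with rfl | ht
      · exact ⟨hF, hψ⟩
      rcases List.mem_cons.1 ht with rfl | ht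
      · exact ⟨d.fin₃, smooth_res d.le₃ hψ⟩
      rcases List.mem_cons.1 ht with rfl | ht
      · exact ⟨d.fin₁, smooth_res d.le₁ hψ⟩
      rcases List.mem_cons.1 ht with rfl | ht
      · exact ⟨d.fin₂, smooth_res d.le₂ hψ⟩
      · exact absurd ht List.not_mem_nil) (by
    funext g
    rw [one_nsmul]
    change ((1 : ℤ) • induced (bt K) F ψ.fn + ((1 : ℤ) • induced (bt K) d.F₃ (ψ.res d.le₃).fn +
      ((-1 : ℤ) • induced (bt K) d.F₁ (ψ.res d.le₁).fn +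
      ((-1 : ℤ) • induced (bt K) d.F₂ (ψ.res d.le₂).fn + 0)))) g = _
    rw [one_zsmul, one_zsmul, neg_one_zsmul, neg_one_zsmul, add_zero, Pi.add_apply, Pi.add_apply,
      Pi.add_apply, Pi.neg_apply, Pi.neg_apply, induced_relation hF hψ hη.smooth d g]
    ring)
  have hA := ((GD.A_ne (BLv.g (K := K) (k := k) (H := H)) hF c).and
    (GD.A_ne BLv.g d.fin₃ c₃)).and ((GD.A_ne BLv.g d.fin₁ c₁).and (GD.A_ne BLv.g d.fin₂ c₂))
  have h2 : GD.EvG (BLv.g (K := K) (k := k) (H := H)) fun ℓ => (∀ s : ℂ, 1 < s.re →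
      ℓ.L (ψ.mul η).fn s ^ 1 =
      ℓ.L ψ.fn s ^ (1 : ℤ) * (ℓ.L (ψ.res d.le₃).fn s ^ (1 : ℤ) *
        (ℓ.L (ψ.res d.le₁).fn s ^ (-1 : ℤ) * (ℓ.L (ψ.res d.le₂).fn s ^ (-1 : ℤ) * 1)))) ∧
      ℓ.A (ψ.mul η).fn ^ 1 = ℓ.A ψ.fn ^ (1 : ℤ) * (ℓ.A (ψ.res d.le₃).fn ^ (1 : ℤ) *
        (ℓ.A (ψ.res d.le₁).fn ^ (-1 : ℤ) * (ℓ.A (ψ.res d.le₂).fn ^ (-1 : ℤ) * 1))) :=
    ⟨N₀, hN₀, fun ℓ hℓ => h1 ℓ.g hℓ⟩
  obtain ⟨N₁, hN₁, h3⟩ := h2.and hA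
  refine ⟨N₁, hN₁, fun ℓ hℓ => ?_⟩
  obtain ⟨⟨a1, a2⟩, ⟨⟨b, -⟩, b₃, -⟩, ⟨b₁, -⟩, b₂, -⟩ := h3 ℓ hℓ
  refine ⟨fun s hs => ?_, ?_⟩
  · have a3 := a1 s hs
    have n₁ := bl_ne ℓ (ψ.res d.le₁).fn s
    have n₂ := bl_ne ℓ (ψ.res d.le₂).fn s
    rw [pow_one, zpow_one, zpow_one, zpow_neg_one, zpow_neg_one, mul_one] at a3
    rw [a3]
    field_simp
  · rw [pow_one, zpow_one, zpow_one, zpow_neg_one, zpow_neg_one, mul_one] at a2
    have b₁' : ℓ.A (ψ.res d.le₁).fn ≠ 0 := b₁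
    have b₂' : ℓ.A (ψ.res d.le₂).fn ≠ 0 := b₂
    rw [a2]
    field_simp

theorem beq_iff (H : Motivic K k) {F : Sub K} (hF : FinExt F) {χ : Fn F} (h : Char χ) :
    GD.dfx (BLv.g (K := K) (k := k) (H := H)) F χ = 0 ↔ BEq H χ :=
  GD.dfx_zero (BLv.g (K := K) (k := k) (H := H)) hF h

theorem neg_one_cases (k : ℕ) : ((-1 : ℂ) ^ k = 1) ∨ ((-1 : ℂ) ^ k = -1) :=
  neg_one_pow_eq_or ℂ k

theorem beilinson (H : Motivic K k) : Beilinson K k H := by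
  intro hu
  obtain ⟨h1, h2⟩ := functions (K := K) _ (GD.dfx (BLv.g (K := K) (k := k) (H := H)))
    (GD.dfx_addInd BLv.g)
    (fun F ψ hF hψ h => (beq_iff H hF (smooth_char hψ)).2 (hu F ψ hF hψ h))
  have h3 : ∀ (F : Sub K) (ψ η : Lin F), FinExt F → ψ.smooth → Twister ψ η →
      (BEq H (ψ.mul η).fn ↔ BEq H ψ.fn) := by
    intro F ψ η hF hψ hη
    rw [← beq_iff H hF (smooth_char (smooth_mul hψ hη.smooth)), ← beq_iff H hF
      (smooth_char hψ), h1 F ψ η hF hψ hη]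
  have h4 : ∀ (F : Sub K) (ψ : Lin F), FinExt F → TotReal F → ψ.smooth →
      ∃ η : Lin F, Twister ψ η ∧ (ψ.mul η).parity ((-1) ^ k) ∧
        (BEq H ψ.fn ↔ BEq H (ψ.mul η).fn) := by
    intro F ψ hF hr hψ
    obtain ⟨η, hη, ho⟩ := exists_odd hF hψ (neg_one_cases k)
    exact ⟨η, hη, ho, (h3 F ψ η hF hψ hη).symm⟩
  refine ⟨h3, h4, fun hp => ⟨fun F ψ hF hr hψ => ?_, fun F χ hF hr hχ => ?_⟩⟩
  · obtain ⟨η, hη, ho, h5⟩ := h4 F ψ hF hr hψ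
    exact h5.2 (hp F _ hF hr (smooth_mul hψ hη.smooth) ho)
  · exact (beq_iff H hF (charCC_char hχ)).1 (h2 ((-1) ^ k) (neg_one_cases k)
      (fun F ψ hF hr hψ hs => (beq_iff H hF (smooth_char hψ)).2 (hp F ψ hF hr hψ hs)) F χ hF hr hχ)

end

end Pool.Agent.Q20.RS.RL.BX
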